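import Pool.Agent.W314.BA.Stm

/-! MP_f2742c_an: the pointwise ergodic theorem in `L¹` on the product. -/

open MeasureTheory Set Filter Topology Real
open scoped ENNReal NNReal

namespace Pool.Agent.W370.BA

open Pool.Agent.W314.BA

noncomputable section

variable {Y : Type} [MeasurableSpace Y] [MulAction G Y] {μ : Measure Y} {c : G → Y → ℤ}

/-- skew product -/
def SK (c : G → Y → ℤ) (α : T) (g : G) (p : Y × T) : Y × T := (g • p.1, p.2 + c g p.1 • α)

instance instTmProb : IsProbabilityMeasure tm := by unfold tm; infer_instance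

lemma zs_meas (α : T) : Measurable (fun n : ℤ => n • α) := measurable_from_top

lemma SK_meas (hS : Sys μ c) (α : T) : Measurable (fun q : G × (Y × T) => SK c α q.1 q.2) := by
  unfold SK
  have h1 : Measurable (fun q : G × (Y × T) => (q.1, q.2.1)) :=
    measurable_fst.prodMk (measurable_fst.comp measurable_snd)
  refine Measurable.prodMk (hS.smul_meas.comp h1) ?_
  exact (measurable_snd.comp measurable_snd).add ((zs_meas α).comp (hS.c_meas.comp h1))

lemma SK_mp (hS : Sys μ c) (α : T) (g : G) :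
    MeasurePreserving (SK c α g) (μ.prod tm) (μ.prod tm) := by
  have := hS.prob
  have hc : Measurable (fun y => c g y) := hS.c_meas.comp (measurable_const.prodMk measurable_id)
  have hm : Measurable (Function.uncurry (fun (y : Y) (z : T) => z + c g y • α)) :=
    measurable_snd.add ((zs_meas α).comp (hc.comp measurable_fst))
  exact MeasurePreserving.skew_product (hS.mp g) hm (Eventually.of_forall (fun y => by
    unfold tm
    exact map_add_right_eq_self _ _))

lemma bm_ac (x : ℝ) : bm x ≪ hm := by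
  unfold bm
  exact Measure.smul_absolutelyContinuous.trans Measure.restrict_le_self.absolutelyContinuous

lemma SK_ae (hS : Sys μ c) (α : T) {N : Set (Y × T)} (hN : (μ.prod tm) N = 0) :
    ∀ᵐ p ∂(μ.prod tm), ∀ x : ℝ, ∀ᵐ g ∂(bm x), SK c α g p ∉ N := by
  have := hS.prob
  obtain ⟨N', hsub, hmeas, hN'⟩ := exists_measurable_superset_of_null hN
  have hset : MeasurableSet {q : G × (Y × T) | SK c α q.1 q.2 ∉ N'} :=
    (SK_meas hS α) hmeas.compl
  have h1 : ∀ᵐ g ∂hm, ∀ᵐ p ∂(μ.prod tm), SK c α g p ∉ N' := by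
    refine Eventually.of_forall (fun g => ?_)
    have := (SK_mp hS α g).measure_preimage hmeas.nullMeasurableSet
    rw [hN'] at this
    exact measure_eq_zero_iff_ae_notMem.1 this
  have h2 := (Measure.ae_ae_comm (μ := hm) (ν := μ.prod tm) (p := fun g p => SK c α g p ∉ N')
    hset).1 h1
  filter_upwards [h2] with p hp x
  filter_upwards [(bm_ac x).ae_le hp] with g hg hgN
  exact hg (hsub hgN)

lemma fourier_add_arg (k : ℤ) (z w : T) :
    (fourier k (z + w) : ℂ) = fourier k z * fourier k w := by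
  simp only [fourier_apply, smul_add, AddCircle.toCircle_add, Circle.coe_mul]

lemma fourier_ee (k n : ℤ) (a : ℝ) :
    (fourier k (n • (a : T) : T) : ℂ) = ee (((k : ℝ) * a) * n) := by
  have h : (n • (a : T) : T) = (((n : ℝ) * a : ℝ) : T) := by
    rw [← AddCircle.coe_zsmul, zsmul_eq_mul]
  rw [h, fourier_coe_apply, ee]
  congr 1
  push_cast
  ring

lemma AX_single (a : ℝ) (k : ℤ) (h : Y → ℂ) (x : ℝ) (p : Y × T) :
    ∫ g, h (SK c (a : T) g p).1 * fourier k (SK c (a : T) g p).2 ∂(bm x) =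
      fourier k p.2 * tw c ((k : ℝ) * a) (bm x) h p.1 := by
  unfold SK tw
  rw [← integral_const_mul]
  congr 1
  ext g
  simp only [fourier_add_arg, fourier_ee]
  ring

lemma int_fourier {k : ℤ} (hk : k ≠ 0) : ∫ z : T, (fourier k z : ℂ) ∂tm = 0 := by
  unfold tm
  exact integral_eq_zero_of_add_right_eq_neg (μ := AddCircle.haarAddCircle)
    (fourier_add_half_inv_index hk (Fact.out : (0 : ℝ) < 1))

lemma ee_ne_one {a : ℝ} (ha : Irrational a) {k d : ℤ} (hk : k ≠ 0) (hd : d ≠ 0) :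
    ee (d * ((k : ℝ) * a)) ≠ 1 := by
  intro h
  rw [ee, Complex.exp_eq_one_iff] at h
  obtain ⟨n, hn⟩ := h
  have h1 : (d : ℂ) * ((k : ℂ) * a) = n := by
    have h2 : (2 * π * Complex.I : ℂ) ≠ 0 := by
      simp [Real.pi_ne_zero]
    apply mul_left_cancel₀ h2
    push_cast at hn
    rw [hn]
    ring
  have h3 : (d : ℝ) * ((k : ℝ) * a) = n := by exact_mod_cast h1
  have h4 : Irrational (((d * k : ℤ) : ℝ) * a) :=
    ha.intCast_mul (mul_ne_zero hd hk)
  apply h4.ne_int n
  push_cast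
  linarith

lemma single_conv (hS : Sys μ c) (h2 : GoodStmt) {a : ℝ} (ha : Irrational a) (k : ℤ)
    {h : Y → ℂ} (hh : BM h) :
    ∀ᵐ p ∂(μ.prod tm), Tendsto (fun x => ∫ g, h (SK c (a : T) g p).1 *
      fourier k (SK c (a : T) g p).2 ∂(bm x)) atTop
      (𝓝 (∫ p, h p.1 * fourier k p.2 ∂(μ.prod tm))) := by
  have := hS.prob
  obtain ⟨d, hd, g1, g2⟩ := h2 Y μ c hS
  have hint : ∫ p, h p.1 * fourier k p.2 ∂(μ.prod tm) =
      (∫ y, h y ∂μ) * ∫ z, (fourier k z : ℂ) ∂tm :=
    integral_prod_mul (μ := μ) (ν := tm) h (fun z => (fourier k z : ℂ))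
  by_cases hk : k = 0
  · subst hk
    have h3 := (Measure.quasiMeasurePreserving_fst (μ := μ) (ν := tm)).ae (g2 h hh)
    filter_upwards [h3] with p hp
    have h4 : ∫ z : T, (fourier 0 z : ℂ) ∂tm = 1 := by simp
    rw [hint, h4, mul_one]
    refine hp.congr (fun x => ?_)
    rw [AX_single]
    simp
  · have h3 := (Measure.quasiMeasurePreserving_fst (μ := μ) (ν := tm)).ae
      (g1 ((k : ℝ) * a) h hh (ee_ne_one ha hk hd))
    filter_upwards [h3] with p hp
    rw [hint, int_fourier hk, mul_zero]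
    have h5 := hp.const_mul (fourier k p.2 : ℂ)
    rw [mul_zero] at h5
    refine h5.congr (fun x => ?_)
    rw [AX_single]

/-- a trigonometric polynomial with measurable coefficients -/
def TP (N : ℕ) (h : ℤ → Y → ℂ) (p : Y × T) : ℂ :=
  ∑ k ∈ Finset.Icc (-(N : ℤ)) N, h k p.1 * fourier k p.2

lemma term_meas {h : Y → ℂ} (hh : BM h) (k : ℤ) :
    Measurable (fun p : Y × T => h p.1 * fourier k p.2) :=
  (hh.1.comp measurable_fst).mul ((fourier k).continuous.measurable.comp measurable_snd)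

lemma term_bdd {h : Y → ℂ} (hh : BM h) (k : ℤ) :
    ∃ C : ℝ, ∀ p : Y × T, ‖h p.1 * fourier k p.2‖ ≤ C := by
  obtain ⟨C, hC⟩ := hh.2
  refine ⟨C, fun p => ?_⟩
  rw [norm_mul, fourier_apply, Circle.norm_coe, mul_one]
  exact hC p.1

lemma term_int_SK (hS : Sys μ c) (α : T) {h : Y → ℂ} (hh : BM h) (k : ℤ) (x : ℝ) (p : Y × T) :
    Integrable (fun g => h (SK c α g p).1 * fourier k (SK c α g p).2) (bm x) := by
  obtain ⟨C, hC⟩ := term_bdd hh k
  have hm : Measurable (fun g => SK c α g p) :=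
    (SK_meas hS α).comp (measurable_id.prodMk measurable_const)
  exact Integrable.of_bound ((term_meas hh k).comp hm).aestronglyMeasurable C
    (Eventually.of_forall (fun g => hC _))

lemma term_int (hS : Sys μ c) {h : Y → ℂ} (hh : BM h) (k : ℤ) :
    Integrable (fun p : Y × T => h p.1 * fourier k p.2) (μ.prod tm) := by
  have := hS.prob
  obtain ⟨C, hC⟩ := term_bdd hh k
  exact Integrable.of_bound (term_meas hh k).aestronglyMeasurable C
    (Eventually.of_forall (fun g => hC _))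

lemma TP_meas {h : ℤ → Y → ℂ} (hh : ∀ k, BM (h k)) (N : ℕ) : Measurable (TP N h) :=
  Finset.measurable_sum _ (fun k _ => term_meas (hh k) k)

lemma TP_int_SK (hS : Sys μ c) (α : T) {h : ℤ → Y → ℂ} (hh : ∀ k, BM (h k)) (N : ℕ) (x : ℝ)
    (p : Y × T) : Integrable (fun g => TP N h (SK c α g p)) (bm x) :=
  integrable_finsetSum _ (fun k _ => term_int_SK hS α (hh k) k x p)

lemma TP_int (hS : Sys μ c) {h : ℤ → Y → ℂ} (hh : ∀ k, BM (h k)) (N : ℕ) :
    Integrable (TP N h) (μ.prod tm) :=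
  integrable_finsetSum _ (fun k _ => term_int hS (hh k) k)

lemma poly_conv (hS : Sys μ c) (h2 : GoodStmt) {a : ℝ} (ha : Irrational a) {h : ℤ → Y → ℂ}
    (hh : ∀ k, BM (h k)) (N : ℕ) :
    ∀ᵐ p ∂(μ.prod tm), Tendsto (fun x => ∫ g, TP N h (SK c (a : T) g p) ∂(bm x)) atTop
      (𝓝 (∫ p, TP N h p ∂(μ.prod tm))) := by
  have h3 : ∀ᵐ p ∂(μ.prod tm), ∀ k : ℤ, Tendsto (fun x => ∫ g, h k (SK c (a : T) g p).1 *
      fourier k (SK c (a : T) g p).2 ∂(bm x)) atTop
      (𝓝 (∫ p, h k p.1 * fourier k p.2 ∂(μ.prod tm))) :=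
    ae_all_iff.2 (fun k => single_conv hS h2 ha k (hh k))
  filter_upwards [h3] with p hp
  have h4 : ∫ p, TP N h p ∂(μ.prod tm) =
      ∑ k ∈ Finset.Icc (-(N : ℤ)) N, ∫ p, h k p.1 * fourier k p.2 ∂(μ.prod tm) :=
    integral_finsetSum _ (fun k _ => term_int hS (hh k) k)
  rw [h4]
  refine (tendsto_finsetSum _ (fun k _ => hp k)).congr (fun x => ?_)
  exact (integral_finsetSum _ (fun k _ => term_int_SK hS _ (hh k) k x p)).symm

lemma bad_null (hS : Sys μ c) (h1 : WeakStmt) (h2 : GoodStmt) (h3 : DensStmt) {a : ℝ}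
    (ha : Irrational a) {F : Y × T → ℂ} (hFm : Measurable F) (hF : Integrable F (μ.prod tm))
    {l : ℝ} (hl : 0 < l) :
    ∀ᵐ p ∂(μ.prod tm), ∀ᶠ x in atTop,
      ‖∫ g, F (SK c (a : T) g p) ∂(bm x) - ∫ p, F p ∂(μ.prod tm)‖ ≤ 3 * l := by
  have := hS.prob
  obtain ⟨C, hC, hweak⟩ := h1 Y μ c hS
  rw [ae_iff]
  set B := {p : Y × T | ¬ ∀ᶠ x in atTop,
      ‖∫ g, F (SK c (a : T) g p) ∂(bm x) - ∫ p, F p ∂(μ.prod tm)‖ ≤ 3 * l} with hB
  have hl0 : ENNReal.ofReal l ≠ 0 := by
    rw [Ne, ENNReal.ofReal_eq_zero, not_le]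
    exact hl
  have key : ∀ ε : ℝ, 0 < ε → ε ≤ l →
      (μ.prod tm) B ≤ (C / ENNReal.ofReal l) * ENNReal.ofReal ε := by
    intro ε hε hεl
    obtain ⟨N, h, hh, hle⟩ := h3 Y μ F hF ε hε
    have hle' : ∫ p, ‖F p - TP N h p‖ ∂(μ.prod tm) ≤ ε := hle
    have hPint := TP_int (μ := μ) hS hh N
    have hPm := TP_meas hh N
    have hDint : Integrable (fun p => F p - TP N h p) (μ.prod tm) := hF.sub hPint
    have hDm : Measurable (fun p => F p - TP N h p) := hFm.sub hPm
    have hlin : ∫⁻ p, ‖F p - TP N h p‖ₑ ∂(μ.prod tm) ≤ ENNReal.ofReal ε := by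
      rw [← ofReal_integral_norm_eq_lintegral_enorm hDint]
      exact ENNReal.ofReal_le_ofReal hle'
    have hw := hweak (a : T) (fun p => ‖F p - TP N h p‖ₑ) hDm.enorm (ENNReal.ofReal l) hl0
      ENNReal.ofReal_ne_top
    have hconv := poly_conv hS h2 ha hh N
    rw [ae_iff] at hconv
    have hsub : B ⊆ {p : Y × T | ¬ Tendsto (fun x => ∫ g, TP N h (SK c (a : T) g p) ∂(bm x)) atTop
      (𝓝 (∫ p, TP N h p ∂(μ.prod tm)))} ∪ {p | ∃ x : ℝ, 2 ≤ x ∧ ENNReal.ofReal l <
        ∫⁻ g, ‖F (g • p.1, p.2 + c g p.1 • (a : T)) -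
          TP N h (g • p.1, p.2 + c g p.1 • (a : T))‖ₑ ∂(bm x)} := by
      intro p hp
      by_contra hcon
      rw [mem_union, not_or] at hcon
      obtain ⟨hc1, hc2⟩ := hcon
      apply hp
      have hc1' : Tendsto (fun x => ∫ g, TP N h (SK c (a : T) g p) ∂(bm x)) atTop
        (𝓝 (∫ p, TP N h p ∂(μ.prod tm))) := by
        by_contra hcc
        exact hc1 hcc
      have hev := (Metric.tendsto_nhds.1 hc1') l hl
      filter_upwards [hev, eventually_ge_atTop (2 : ℝ)] with x hx hx2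
      have hlt : ∫⁻ g, ‖F (SK c (a : T) g p) - TP N h (SK c (a : T) g p)‖ₑ ∂(bm x) ≤
          ENNReal.ofReal l := by
        by_contra hcc
        exact hc2 ⟨x, hx2, not_le.1 hcc⟩
      have hSm : Measurable (fun g => SK c (a : T) g p) :=
        (SK_meas hS _).comp (measurable_id.prodMk measurable_const)
      have hi1 : Integrable (fun g => F (SK c (a : T) g p) - TP N h (SK c (a : T) g p))
          (bm x) :=
        ⟨(hDm.comp hSm).aestronglyMeasurable, lt_of_le_of_lt hlt ENNReal.ofReal_lt_top⟩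
      have hi2 := TP_int_SK (μ := μ) hS (a : T) hh N x p
      have hi3 : Integrable (fun g => F (SK c (a : T) g p)) (bm x) := by
        have := hi1.add hi2
        refine this.congr (Eventually.of_forall (fun g => ?_))
        simp
      have e1 : ‖∫ g, F (SK c (a : T) g p) ∂(bm x) - ∫ g, TP N h (SK c (a : T) g p) ∂(bm x)‖
          ≤ l := by
        rw [← integral_sub hi3 hi2]
        have := enorm_integral_le_lintegral_enorm (μ := bm x)
          (fun g => F (SK c (a : T) g p) - TP N h (SK c (a : T) g p))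
        have h6 := this.trans hlt
        rw [← ofReal_norm] at h6
        exact (ENNReal.ofReal_le_ofReal_iff hl.le).1 h6
      have e2 : ‖∫ g, TP N h (SK c (a : T) g p) ∂(bm x) - ∫ p, TP N h p ∂(μ.prod tm)‖ ≤ l := by
        rw [dist_eq_norm] at hx
        exact hx.le
      have e3 : ‖∫ p, TP N h p ∂(μ.prod tm) - ∫ p, F p ∂(μ.prod tm)‖ ≤ l := by
        rw [← integral_sub hPint hF]
        refine (norm_integral_le_integral_norm _).trans ?_
        have : ∫ p, ‖TP N h p - F p‖ ∂(μ.prod tm) = ∫ p, ‖F p - TP N h p‖ ∂(μ.prod tm) := by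
          congr 1
          ext p
          exact norm_sub_rev _ _
        rw [this]
        linarith
      calc ‖∫ g, F (SK c (a : T) g p) ∂(bm x) - ∫ p, F p ∂(μ.prod tm)‖
          = ‖(∫ g, F (SK c (a : T) g p) ∂(bm x) - ∫ g, TP N h (SK c (a : T) g p) ∂(bm x)) +
            (∫ g, TP N h (SK c (a : T) g p) ∂(bm x) - ∫ p, TP N h p ∂(μ.prod tm)) +
            (∫ p, TP N h p ∂(μ.prod tm) - ∫ p, F p ∂(μ.prod tm))‖ := by
              congr 1
              ring
        _ ≤ _ := norm_add₃_le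
        _ ≤ 3 * l := by linarith
    refine (measure_mono hsub).trans ((measure_union_le _ _).trans ?_)
    rw [hconv, zero_add]
    refine hw.trans ?_
    rw [ENNReal.div_eq_inv_mul, ENNReal.div_eq_inv_mul, mul_assoc]
    gcongr
  have hKtop : C / ENNReal.ofReal l ≠ ⊤ := ENNReal.div_ne_top hC hl0
  have hlim : Tendsto (fun n : ℕ => (C / ENNReal.ofReal l) * ENNReal.ofReal (l * (1 / ((n : ℝ) + 1))))
      atTop (𝓝 ((C / ENNReal.ofReal l) * ENNReal.ofReal (l * 0))) := by
    refine ENNReal.Tendsto.const_mul (ENNReal.tendsto_ofReal ?_) (Or.inr hKtop)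
    exact tendsto_one_div_add_atTop_nhds_zero_nat.const_mul l
  rw [mul_zero, ENNReal.ofReal_zero, mul_zero] at hlim
  refine le_antisymm (ge_of_tendsto' hlim (fun n => key _ ?_ ?_)) zero_le
  · positivity
  · have : (1 : ℝ) / ((n : ℝ) + 1) ≤ 1 := by
      rw [div_le_one (by positivity)]
      have : (0 : ℝ) ≤ n := Nat.cast_nonneg n
      linarith
    nlinarith

theorem main (h1 : WeakStmt) (h2 : GoodStmt) (h3 : DensStmt) : ConvXStmt := by
  intro Y _ _ μ c hS a ha F hF
  have := hS.prob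
  obtain ⟨F', hF'sm, hFF'⟩ := hF.aestronglyMeasurable
  have hF'm : Measurable F' := hF'sm.measurable
  have hF'i : Integrable F' (μ.prod tm) := hF.congr hFF'
  have hcm : Measurable (fun p => (F' p : ℂ)) := Complex.measurable_ofReal.comp hF'm
  have hci : Integrable (fun p => (F' p : ℂ)) (μ.prod tm) := hF'i.ofReal
  have hall : ∀ᵐ p ∂(μ.prod tm), ∀ n : ℕ, ∀ᶠ x in atTop,
      ‖∫ g, (F' (SK c (a : T) g p) : ℂ) ∂(bm x) - ∫ p, (F' p : ℂ) ∂(μ.prod tm)‖ ≤
        3 * (1 / ((n : ℝ) + 1)) :=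
    ae_all_iff.2 (fun n => bad_null hS h1 h2 h3 ha hcm hci (by positivity))
  have hnull : (μ.prod tm) {q | ¬ F q = F' q} = 0 := ae_iff.1 hFF'
  filter_upwards [hall, SK_ae hS (a : T) hnull] with p hp hq
  have e0 : ∫ p, F p ∂(μ.prod tm) = ∫ p, F' p ∂(μ.prod tm) := integral_congr_ae hFF'
  have e1 : ∀ x : ℝ, ∫ g, F (g • p.1, p.2 + c g p.1 • (a : T)) ∂(bm x) =
      ∫ g, F' (SK c (a : T) g p) ∂(bm x) := by
    intro x
    apply integral_congr_ae
    filter_upwards [hq x] with g hg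
    by_contra hne
    exact hg hne
  rw [e0]
  simp only [e1]
  rw [Metric.tendsto_atTop']
  intro ε hε
  obtain ⟨n, hn⟩ := exists_nat_one_div_lt (show (0 : ℝ) < ε / 3 by positivity)
  obtain ⟨X, hX⟩ := (eventually_atTop.1 (hp n))
  refine ⟨X, fun x hx => ?_⟩
  have h5 := hX x hx.le
  rw [integral_complex_ofReal, integral_complex_ofReal, ← Complex.ofReal_sub, Complex.norm_real] at h5
  rw [dist_eq_norm]
  refine lt_of_le_of_lt h5 ?_
  linarith

end

end Pool.Agent.W370.BA
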